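import Mathlib
import Pool.Agent.R945.LD.Base

set_option autoImplicit false

namespace Pool.Agent.R945.CM

open Finset Pool.Agent.R945.LD

variable {p : ℕ} [Fact p.Prime]

/-- number of solutions of `y² = u` -/
lemma card_sq (hp2 : p ≠ 2) (u : ZMod p) :
    ((univ.filter (fun y : ZMod p => y ^ 2 = u)).card : ℤ) = q p u + 1 := by
  have h := quadraticChar_card_sqrts (ringChar_ne hp2) u
  have e : {x : ZMod p | x ^ 2 = u}.toFinset = univ.filter (fun y : ZMod p => y ^ 2 = u) := by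
    ext x; simp
  rw [e] at h
  exact h

lemma four_ne (hp2 : p ≠ 2) : (4 : ZMod p) ≠ 0 := by
  have : (4 : ZMod p) = 2 * 2 := by norm_num
  rw [this]; exact mul_ne_zero (two_ne hp2) (two_ne hp2)

/-- number of solutions of a monic quadratic -/
lemma card_quad (hp2 : p ≠ 2) (a b : ZMod p) :
    ((univ.filter (fun x : ZMod p => x ^ 2 + a * x + b = 0)).card : ℤ) = q p (a ^ 2 - 4 * b) + 1 := by
  rw [← card_sq hp2]
  have h2 := two_ne hp2
  have h4 := four_ne hp2
  congr 1
  apply Finset.card_bij (fun x _ => 2 * x + a)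
  · intro x hx
    rw [Finset.mem_filter] at hx ⊢
    refine ⟨Finset.mem_univ _, ?_⟩
    linear_combination 4 * hx.2
  · intro x _ y _ h
    exact mul_left_cancel₀ h2 (add_right_cancel h)
  · intro y hy
    rw [Finset.mem_filter] at hy
    refine ⟨2⁻¹ * (y - a), ?_, ?_⟩
    · rw [Finset.mem_filter]
      refine ⟨Finset.mem_univ _, ?_⟩
      apply mul_left_cancel₀ h4
      have h2i : (2 : ZMod p) * 2⁻¹ = 1 := mul_inv_cancel₀ h2
      linear_combination hy.2 + ((2 * 2⁻¹ + 1) * (y - a) ^ 2 + 2 * a * (y - a)) * h2i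
    · rw [← mul_assoc, mul_inv_cancel₀ h2, one_mul]; ring

/-- the character sum attached to `x(x²+ax+b)`. -/
noncomputable def S (p : ℕ) [Fact p.Prime] (a b : ZMod p) : ℤ := ∑ x : ZMod p, q p x * q p (x ^ 2 + a * x + b)

lemma q_inv (x : ZMod p) : q p x⁻¹ = q p x := by
  by_cases hx : x = 0
  · subst hx; simp
  · have h1 := q_sq hx
    have h2 : q p x * q p x⁻¹ = 1 := by
      rw [← q_mul, mul_inv_cancel₀ hx]; simp
    have h3 : q p x ≠ 0 := by
      intro h0; rw [h0] at h1; simp at h1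
    exact mul_left_cancel₀ h3 (by rw [h1, h2])

/-- invariance under a 2-isogeny -/
theorem S_iso (hp2 : p ≠ 2) (a b : ZMod p) : S p a b = S p (-2 * a) (a ^ 2 - 4 * b) := by
  classical
  unfold S
  have e1 : ∑ x : ZMod p, q p x * q p (x ^ 2 + a * x + b) =
      ∑ x ∈ univ.erase (0 : ZMod p), q p ((x ^ 2 + a * x + b) * x⁻¹) := by
    rw [← Finset.add_sum_erase univ _ (Finset.mem_univ (0 : ZMod p)), q_zero, zero_mul, zero_add]
    apply Finset.sum_congr rfl
    intro x _
    rw [q_mul, q_inv, mul_comm]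
  have e2 : ∑ x ∈ univ.erase (0 : ZMod p), q p ((x ^ 2 + a * x + b) * x⁻¹) =
      ∑ u : ZMod p, ∑ x ∈ (univ.erase (0 : ZMod p)).filter
        (fun x => (x ^ 2 + a * x + b) * x⁻¹ = u), q p ((x ^ 2 + a * x + b) * x⁻¹) := by
    rw [Finset.sum_fiberwise]
  have e3 : ∀ u : ZMod p, ∑ x ∈ (univ.erase (0 : ZMod p)).filter
        (fun x => (x ^ 2 + a * x + b) * x⁻¹ = u), q p ((x ^ 2 + a * x + b) * x⁻¹) =
      q p u * (q p (u ^ 2 + -2 * a * u + (a ^ 2 - 4 * b)) + 1 - if b = 0 then 1 else 0) := by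
    intro u
    have e4 : ∀ x ∈ (univ.erase (0 : ZMod p)).filter
        (fun x => (x ^ 2 + a * x + b) * x⁻¹ = u), q p ((x ^ 2 + a * x + b) * x⁻¹) = q p u := by
      intro x hx
      rw [Finset.mem_filter] at hx
      rw [hx.2]
    rw [Finset.sum_congr rfl e4, Finset.sum_const, nsmul_eq_mul, mul_comm]
    congr 1
    have e5 : (univ.erase (0 : ZMod p)).filter (fun x => (x ^ 2 + a * x + b) * x⁻¹ = u) =
        (univ.filter (fun x : ZMod p => x ^ 2 + (a - u) * x + b = 0)).erase 0 := by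
      ext x
      simp only [Finset.mem_filter, Finset.mem_erase, Finset.mem_univ, and_true, true_and]
      constructor
      · rintro ⟨hx, h⟩
        refine ⟨hx, ?_⟩
        have : x ^ 2 + a * x + b = u * x := by
          rw [← h, mul_assoc, inv_mul_cancel₀ hx, mul_one]
        linear_combination this
      · rintro ⟨hx, h⟩
        refine ⟨hx, ?_⟩
        have : x ^ 2 + a * x + b = u * x := by linear_combination h
        rw [this, mul_assoc, mul_inv_cancel₀ hx, mul_one]
    rw [e5]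
    have e6 := card_quad hp2 (a - u) b
    have e7 : (a - u) ^ 2 - 4 * b = u ^ 2 + -2 * a * u + (a ^ 2 - 4 * b) := by ring
    rw [e7] at e6
    rw [← e6]
    by_cases hb : b = 0
    · rw [Finset.card_erase_of_mem (by simp [hb]), if_pos hb, Nat.cast_sub]
      · simp
      · rw [Nat.succ_le_iff, Finset.card_pos]
        exact ⟨0, by simp [hb]⟩
    · rw [Finset.erase_eq_of_notMem (by simp [hb]), if_neg hb]
      simp
  rw [e1, e2, Finset.sum_congr rfl (fun u _ => e3 u)]
  have e8 : ∀ u : ZMod p, q p u * (q p (u ^ 2 + -2 * a * u + (a ^ 2 - 4 * b)) + 1 -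
      if b = 0 then 1 else 0) = q p u * q p (u ^ 2 + -2 * a * u + (a ^ 2 - 4 * b)) +
      (1 - if b = 0 then 1 else 0) * q p u := by intro u; ring
  rw [Finset.sum_congr rfl (fun u _ => e8 u), Finset.sum_add_distrib, ← Finset.mul_sum, q_sum hp2]
  simp

lemma S_neg (a b : ZMod p) : S p (-a) b = q p (-1) * S p a b := by
  unfold S
  rw [Finset.mul_sum]
  apply Fintype.sum_equiv (Equiv.neg (ZMod p))
  intro x
  rw [Equiv.neg_apply, q_neg x]
  have e : (-x) ^ 2 + a * (-x) + b = x ^ 2 + -a * x + b := by ring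
  rw [e]
  have := q_sq (p := p) (a := -1) (by simp)
  linear_combination (-(q p x * q p (x ^ 2 + -a * x + b))) * this

/-- the homogeneous version of the sum -/
lemma S_hom (hp2 : p ≠ 2) (c d j : ZMod p) (hd : S p c d = 0) :
    ∑ k : ZMod p, q p (j ^ 2 + c * j * k + d * k ^ 2) * q p k = 0 := by
  by_cases hj : j = 0
  · subst hj
    have e : ∀ k : ZMod p, q p (0 ^ 2 + c * 0 * k + d * k ^ 2) * q p k = q p d * q p k := by
      intro k
      by_cases hk : k = 0
      · subst hk; simp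
      · have h1 : (0 : ZMod p) ^ 2 + c * 0 * k + d * k ^ 2 = d * (k * k) := by ring
        rw [h1, q_mul, q_mul, q_sq hk, mul_one]
    rw [Finset.sum_congr rfl (fun k _ => e k), ← Finset.mul_sum, q_sum hp2, mul_zero]
  · have e1 : ∑ k : ZMod p, q p (j ^ 2 + c * j * k + d * k ^ 2) * q p k =
        ∑ t : ZMod p, q p j * (q p t * q p (t ^ 2 + c * t + d)) := by
      rw [← Finset.add_sum_erase univ _ (Finset.mem_univ (0 : ZMod p)), q_zero, mul_zero, zero_add]
      rw [← Finset.add_sum_erase univ (fun t => q p j * (q p t * q p (t ^ 2 + c * t + d)))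
        (Finset.mem_univ (0 : ZMod p)), q_zero, zero_mul, mul_zero, zero_add]
      apply Finset.sum_bij (fun k _ => j * k⁻¹)
      · intro k hk
        have hk0 : k ≠ 0 := by simpa using hk
        simp [hj, hk0]
      · intro k _ l _ h
        exact inv_injective (mul_left_cancel₀ hj h)
      · intro t ht
        have ht0 : t ≠ 0 := by simpa using ht
        refine ⟨j * t⁻¹, by simp [hj, ht0], ?_⟩
        rw [mul_inv, inv_inv, ← mul_assoc, mul_inv_cancel₀ hj, one_mul]
      · intro k hk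
        have hk0 : k ≠ 0 := by simpa using hk
        have h1 : (j * k⁻¹) ^ 2 + c * (j * k⁻¹) + d =
            (j ^ 2 + c * j * k + d * k ^ 2) * (k⁻¹ * k⁻¹) := by
          field_simp
        rw [h1, q_mul (j ^ 2 + c * j * k + d * k ^ 2), q_mul k⁻¹, q_inv, q_sq hk0, mul_one,
          q_mul j, q_inv]
        have h2 := q_sq hj
        linear_combination (-(q p (j ^ 2 + c * j * k + d * k ^ 2) * q p k)) * h2
    rw [e1, ← Finset.mul_sum]
    have : ∑ t : ZMod p, q p t * q p (t ^ 2 + c * t + d) = 0 := hd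
    rw [this, mul_zero]

/-- `∑ χ(y²-D)`. -/
lemma sum_sq_sub (hp2 : p ≠ 2) {D : ZMod p} (hD : D ≠ 0) : ∑ y : ZMod p, q p (y ^ 2 - D) = -1 := by
  classical
  have e2 : ∑ y : ZMod p, q p (y ^ 2 - D) =
      ∑ u : ZMod p, ∑ y ∈ univ.filter (fun y : ZMod p => y ^ 2 = u), q p (y ^ 2 - D) := by
    rw [Finset.sum_fiberwise]
  have e3 : ∀ u : ZMod p, ∑ y ∈ univ.filter (fun y : ZMod p => y ^ 2 = u), q p (y ^ 2 - D) =
      q p (u - D) * (q p u + 1) := by
    intro u
    have e4 : ∀ y ∈ univ.filter (fun y : ZMod p => y ^ 2 = u), q p (y ^ 2 - D) = q p (u - D) := by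
      intro y hy
      rw [Finset.mem_filter] at hy
      rw [hy.2]
    rw [Finset.sum_congr rfl e4, Finset.sum_const, nsmul_eq_mul, mul_comm, card_sq hp2]
  rw [e2, Finset.sum_congr rfl (fun u _ => e3 u)]
  have e5 : ∀ u : ZMod p, q p (u - D) * (q p u + 1) = q p u * q p (u + -D) + q p (u + -D) := by
    intro u; rw [← sub_eq_add_neg]; ring
  rw [Finset.sum_congr rfl (fun u _ => e5 u), Finset.sum_add_distrib, q_corr hp2,
    if_neg (by simpa using hD)]
  have e6 : ∑ u : ZMod p, q p (u + -D) = 0 := by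
    rw [← q_sum hp2]
    exact Fintype.sum_equiv (Equiv.addRight (-D)) _ _ (fun _ => rfl)
  rw [e6]; ring

/-- the sum without the character: for `j ≠ 0`. -/
lemma sum_one (hp2 : p ≠ 2) (c d j : ZMod p) (hj : j ≠ 0) (hd : d ≠ 0) (hD : c ^ 2 - 4 * d ≠ 0) :
    ∑ k : ZMod p, q p (j ^ 2 + c * j * k + d * k ^ 2) = - q p d := by
  have h2 := two_ne hp2
  have h2d : 2 * d ≠ 0 := mul_ne_zero h2 hd
  have hD' : j ^ 2 * (c ^ 2 - 4 * d) ≠ 0 := mul_ne_zero (pow_ne_zero 2 hj) hD
  have e1 : ∑ y : ZMod p, q p (y ^ 2 - j ^ 2 * (c ^ 2 - 4 * d)) =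
      ∑ k : ZMod p, q p d * q p (j ^ 2 + c * j * k + d * k ^ 2) := by
    symm
    apply Fintype.sum_equiv ((Equiv.mulLeft₀ (2 * d) h2d).trans (Equiv.addRight (c * j)))
    intro k
    show q p d * q p (j ^ 2 + c * j * k + d * k ^ 2) =
      q p ((2 * d * k + c * j) ^ 2 - j ^ 2 * (c ^ 2 - 4 * d))
    have : (2 * d * k + c * j) ^ 2 - j ^ 2 * (c ^ 2 - 4 * d) =
        (2 * 2) * (d * (j ^ 2 + c * j * k + d * k ^ 2)) := by ring
    rw [this, q_mul (2 * 2), q_mul 2, q_sq h2, one_mul, q_mul]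
  rw [sum_sq_sub hp2 hD', ← Finset.mul_sum] at e1
  have h3 := q_sq hd
  linear_combination (-q p d) * e1 - (∑ k : ZMod p, q p (j ^ 2 + c * j * k + d * k ^ 2)) * h3

end Pool.Agent.R945.CM
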