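import Mathlib
import Pool.Agent.R945.CM.Sums

set_option autoImplicit false

namespace Pool.Agent.R945.CM

open Finset Polynomial Pool.Agent.R945.LD

section general

variable {F : Type*} [CommRing F]

/-- the coefficient of `X^m` in `(X²+aX+b)^m` -/
noncomputable def cc (m : ℕ) (a b : F) : F := ((X ^ 2 + C a * X + C b) ^ m).coeff m

lemma cc_map {E : Type*} [CommRing E] (φ : F →+* E) (m : ℕ) (a b : F) :
    φ (cc m a b) = cc m (φ a) (φ b) := by
  unfold cc
  rw [← coeff_map]
  simp

lemma cc_expand (m : ℕ) (a b : F) : cc m a b =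
    ∑ j ∈ range (m + 1), ((X ^ 2 + C a * X) ^ j).coeff m * (m.choose j) * b ^ (m - j) := by
  unfold cc
  rw [add_pow, finsetSum_coeff]
  apply Finset.sum_congr rfl
  intro j _
  rw [mul_comm ((X ^ 2 + C a * X) ^ j) (C b ^ (m - j)), ← C_pow]
  have : (C (b ^ (m - j)) * (X ^ 2 + C a * X) ^ j * ((m.choose j : ℕ) : F[X])) =
      C (b ^ (m - j) * ((m.choose j : ℕ) : F)) * (X ^ 2 + C a * X) ^ j := by
    rw [C_mul, C_eq_natCast]; ring
  rw [this, coeff_C_mul]; ring

end general

variable {p : ℕ} [Fact p.Prime]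

lemma sum_pow_zmod (i : ℕ) (hi0 : 0 < i) (hi : i < 2 * (p - 1)) :
    ∑ x : ZMod p, x ^ i = if i = p - 1 then -1 else 0 := by
  have hp : p.Prime := Fact.out
  have h2 := hp.two_le
  have hcard : Fintype.card (ZMod p) = p := ZMod.card p
  rcases lt_trichotomy i (p - 1) with h | h | h
  · rw [if_neg (by omega)]
    have := FiniteField.sum_pow_lt_card_sub_one (K := ZMod p) i (by rw [hcard]; exact h)
    exact this
  · rw [if_pos h, h]
    rw [← Finset.add_sum_erase univ _ (Finset.mem_univ (0 : ZMod p)), zero_pow (by omega), zero_add]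
    have e : ∀ x ∈ univ.erase (0 : ZMod p), x ^ (p - 1) = 1 := by
      intro x hx
      have hx0 : x ≠ 0 := by simpa using hx
      exact ZMod.pow_card_sub_one_eq_one hx0
    rw [Finset.sum_congr rfl e, Finset.sum_const, Finset.card_erase_of_mem (Finset.mem_univ _),
      Finset.card_univ, hcard, nsmul_eq_mul, mul_one, Nat.cast_sub (by omega)]
    simp
  · rw [if_neg (by omega)]
    have e : ∀ x : ZMod p, x ^ i = x ^ (i - (p - 1)) := by
      intro x
      by_cases hx : x = 0
      · subst hx
        rw [zero_pow (by omega), zero_pow (by omega)]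
      · have h3 : i = (p - 1) + (i - (p - 1)) := by omega
        conv_lhs => rw [h3, pow_add, ZMod.pow_card_sub_one_eq_one hx, one_mul]
    rw [Finset.sum_congr rfl (fun x _ => e x)]
    have := FiniteField.sum_pow_lt_card_sub_one (K := ZMod p) (i - (p - 1)) (by rw [hcard]; omega)
    exact this

lemma q_pow (m : ℕ) (hm : p = 2 * m + 1) (a : ZMod p) : ((q p a : ℤ) : ZMod p) = a ^ m := by
  have hp2 : p ≠ 2 := by omega
  have h := quadraticChar_eq_pow_of_char_ne_two' (ringChar_ne hp2) a
  rw [ZMod.card] at h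
  have : p / 2 = m := by omega
  rw [this] at h
  exact h

/-- the sum modulo `p` -/
lemma S_mod (m : ℕ) (hm : p = 2 * m + 1) (hm1 : 1 ≤ m) (a b : ZMod p) :
    ((S p a b : ℤ) : ZMod p) = - cc m a b := by
  set G : (ZMod p)[X] := X ^ m * (X ^ 2 + C a * X + C b) ^ m with hG
  have hdeg : G.natDegree ≤ 3 * m := by
    rw [hG]
    refine natDegree_mul_le.trans ?_
    have h1 : (X ^ m : (ZMod p)[X]).natDegree = m := natDegree_X_pow m
    have h2 : ((X ^ 2 + C a * X + C b : (ZMod p)[X]) ^ m).natDegree ≤ m * 2 := by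
      refine natDegree_pow_le_of_le m ?_
      compute_degree
    omega
  unfold S
  push_cast
  have e1 : ∀ x : ZMod p, ((q p x : ℤ) : ZMod p) * ((q p (x ^ 2 + a * x + b) : ℤ) : ZMod p) =
      G.eval x := by
    intro x
    rw [q_pow m hm, q_pow m hm, hG]
    simp
  rw [Finset.sum_congr rfl (fun x _ => e1 x)]
  have e2 : ∀ x : ZMod p, G.eval x = ∑ i ∈ range (3 * m + 1), G.coeff i * x ^ i := by
    intro x
    exact eval_eq_sum_range' (by omega) x
  rw [Finset.sum_congr rfl (fun x _ => e2 x), Finset.sum_comm]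
  have e3 : ∀ i ∈ range (3 * m + 1), ∑ x : ZMod p, G.coeff i * x ^ i =
      if i = 2 * m then - G.coeff i else 0 := by
    intro i hi
    rw [Finset.mem_range] at hi
    rw [← Finset.mul_sum]
    by_cases hi0 : i = 0
    · subst hi0
      rw [if_neg (by omega)]
      simp
    · rw [sum_pow_zmod i (by omega) (by omega)]
      have : p - 1 = 2 * m := by omega
      rw [this]
      split_ifs <;> simp
  rw [Finset.sum_congr rfl e3, Finset.sum_ite_eq' , if_pos (by rw [Finset.mem_range]; omega)]
  congr 1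
  rw [hG, show 2 * m = m + m by ring, coeff_X_pow_mul]
  rfl

/-- the isogeny identity over the prime field -/
lemma cc_iso_prime (m : ℕ) (hm : p = 2 * m + 1) (hm1 : 1 ≤ m) (a b : ZMod p) :
    cc m a b = cc m (-2 * a) (a ^ 2 - 4 * b) := by
  have hp2 : p ≠ 2 := by omega
  have h := congrArg (Int.cast : ℤ → ZMod p) (S_iso hp2 a b)
  rw [S_mod m hm hm1, S_mod m hm hm1] at h
  exact neg_injective h

/-- the isogeny identity for `a = 1` over any extension -/
lemma cc_iso_one (m : ℕ) (hm : p = 2 * m + 1) (hm1 : 1 ≤ m) {F : Type*} [Field F] [Algebra (ZMod p) F]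
    (t : F) : cc m 1 t = cc m (-2) (1 - 4 * t) := by
  set P1 : (ZMod p)[X] := ∑ j ∈ range (m + 1),
    C (((X ^ 2 + C (1 : ZMod p) * X) ^ j).coeff m * ((m.choose j : ℕ) : ZMod p)) * X ^ (m - j) with hP1
  set P2 : (ZMod p)[X] := ∑ j ∈ range (m + 1),
    C (((X ^ 2 + C (-2 : ZMod p) * X) ^ j).coeff m * ((m.choose j : ℕ) : ZMod p)) * (1 - C 4 * X) ^ (m - j) with hP2
  have hP : P1 = P2 := by
    have h0 : P1 - P2 = 0 := by
      apply eq_zero_of_natDegree_lt_card_of_eval_eq_zero' (P1 - P2) (univ : Finset (ZMod p))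
      · intro x _
        have h := cc_iso_prime m hm hm1 1 x
        rw [cc_expand, cc_expand] at h
        rw [eval_sub, hP1, hP2, eval_finsetSum, eval_finsetSum, sub_eq_zero]
        simp only [eval_mul, eval_C, eval_pow, eval_X, eval_sub, eval_one]
        convert h using 3
        · norm_num
        · norm_num
      · rw [Finset.card_univ, ZMod.card]
        refine lt_of_le_of_lt (natDegree_sub_le_of_le (m := m) (n := m) ?_ ?_) (by simp; omega)
        · apply natDegree_sum_le_of_forall_le
          intro j _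
          exact (natDegree_C_mul_X_pow_le _ _).trans (by omega)
        · apply natDegree_sum_le_of_forall_le
          intro j _
          refine (natDegree_C_mul_le _ _).trans ?_
          refine (natDegree_pow_le_of_le (m - j) (m := 1) ?_).trans (by omega)
          compute_degree
    exact sub_eq_zero.mp h0
  have h1 := congrArg (Polynomial.aeval t) hP
  have key : ∀ (a : ZMod p) (j : ℕ), algebraMap (ZMod p) F (((X ^ 2 + C a * X) ^ j).coeff m) =
      ((X ^ 2 + C (algebraMap (ZMod p) F a) * X) ^ j).coeff m := by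
    intro a j
    rw [← coeff_map]
    simp
  rw [hP1, hP2] at h1
  simp only [map_sum, map_mul, aeval_C, map_pow, aeval_X, map_sub, map_natCast, key] at h1
  simp only [map_one, map_neg, map_ofNat] at h1
  rw [cc_expand, cc_expand]
  simp only [map_one, map_neg, map_ofNat]
  exact h1

/-- scaling -/
lemma cc_scale {F : Type*} [Field F] (m : ℕ) (a b l : F) (hl : l ≠ 0) :
    cc m (l * a) (l ^ 2 * b) = l ^ m * cc m a b := by
  unfold cc
  have h1 : ((X ^ 2 + C (l * a) * X + C (l ^ 2 * b) : F[X]) ^ m).comp (C l * X) =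
      C (l ^ (2 * m)) * (X ^ 2 + C a * X + C b) ^ m := by
    rw [pow_comp, pow_mul, C_pow, ← mul_pow]
    congr 1
    simp only [add_comp, mul_comp, pow_comp, X_comp, C_comp, map_mul, map_pow]
    ring
  have h2 := congrArg (fun f : F[X] => f.coeff m) h1
  change coeff _ m = coeff _ m at h2
  rw [comp_C_mul_X_coeff, coeff_C_mul, show 2 * m = m + m by ring, pow_add] at h2
  have h3 : l ^ m ≠ 0 := pow_ne_zero m hl
  apply mul_right_cancel₀ h3
  rw [h2]; ring

/-- the isogeny identity for `a ≠ 0` -/
lemma cc_iso (m : ℕ) (hm : p = 2 * m + 1) (hm1 : 1 ≤ m) {F : Type*} [Field F] [Algebra (ZMod p) F]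
    (a b : F) (ha : a ≠ 0) : cc m a b = cc m (-2 * a) (a ^ 2 - 4 * b) := by
  have h := cc_iso_one (p := p) m hm hm1 (b / a ^ 2)
  have h1 := cc_scale m 1 (b / a ^ 2) a ha
  have h2 := cc_scale m (-2) (1 - 4 * (b / a ^ 2)) a ha
  rw [h, ← h2] at h1
  have e1 : a * 1 = a := mul_one a
  have e2 : a ^ 2 * (b / a ^ 2) = b := by field_simp
  have e3 : a * (-2) = -2 * a := by ring
  have e4 : a ^ 2 * (1 - 4 * (b / a ^ 2)) = a ^ 2 - 4 * b := by field_simp
  rw [e1, e2, e3, e4] at h1
  exact h1

/-- the Hasse coefficient of a polynomial of degree at most three -/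
noncomputable def HH {F : Type*} [Field F] (m : ℕ) (f : F[X]) : F := (f ^ m).coeff (2 * m)

lemma HH_cc {F : Type*} [Field F] (m : ℕ) (a b : F) : HH m (X * (X ^ 2 + C a * X + C b)) = cc m a b := by
  unfold HH cc
  rw [mul_pow, show 2 * m = m + m by ring, coeff_X_pow_mul]

/-- translation invariance -/
lemma HH_shift (m : ℕ) (hm : p = 2 * m + 1) {F : Type*} [Field F] [CharP F p]
    (f : F[X]) (hf : f.natDegree ≤ 3) (s : F) : HH m (f.comp (X + C s)) = HH m f := by
  unfold HH
  have hp : p.Prime := Fact.out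
  rw [← pow_comp]
  have e1 : (f ^ m).comp (X + C s) = taylor s (f ^ m) := rfl
  rw [e1, taylor_coeff]
  have hdeg : (f ^ m).natDegree ≤ 3 * m := by
    refine (natDegree_pow_le_of_le m hf).trans (by omega)
  have e2 : hasseDeriv (2 * m) (f ^ m) = C ((f ^ m).coeff (2 * m)) := by
    ext n
    rw [hasseDeriv_coeff, coeff_C]
    by_cases hn : n = 0
    · subst hn; simp
    · rw [if_neg hn]
      rcases Nat.lt_or_ge (3 * m) (n + 2 * m) with h | h
      · rw [coeff_eq_zero_of_natDegree_lt (lt_of_le_of_lt hdeg h), mul_zero]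
      · have hdvd : p ∣ (n + 2 * m).choose (2 * m) := by
          have h1 : p ∣ ((n + 2 * m).choose (2 * m)) * ((2 * m).factorial * n.factorial) := by
            have h2 := Nat.add_choose_mul_factorial_mul_factorial n (2 * m)
            have h3 : (n + 2 * m).choose (2 * m) = (n + 2 * m).choose n := by
              rw [← Nat.choose_symm_add]
            have h4 : ((n + 2 * m).choose (2 * m)) * ((2 * m).factorial * n.factorial) =
                (n + 2 * m).factorial := by
              rw [← h2]; ring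
            rw [h4]
            exact hp.dvd_factorial.mpr (by omega)
          rcases hp.dvd_mul.mp h1 with h | h
          · exact h
          · exfalso
            rcases hp.dvd_mul.mp h with h | h
            · have := hp.dvd_factorial.mp h; omega
            · have := hp.dvd_factorial.mp h; omega
        have : (((n + 2 * m).choose (2 * m) : ℕ) : F) = 0 := (CharP.cast_eq_zero_iff F p _).mpr hdvd
        rw [this, zero_mul]
  rw [e2, eval_C]

/-- the Hasse coefficient of `x³+21x²+112x` vanishes if `-7` is a non-residue. -/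
theorem cc_zero (m : ℕ) (hm : p = 2 * m + 1) (hm2 : 2 ≤ m) (h7 : q p (-7) = -1) :
    cc m (21 : ZMod p) 112 = 0 := by
  have hp : p.Prime := Fact.out
  have hp2 : p ≠ 2 := by omega
  let F := AlgebraicClosure (ZMod p)
  have hchar : CharP F p := inferInstance
  have h2F : (2 : F) ≠ 0 := by
    intro h
    have : ((2 : ℕ) : F) = 0 := by exact_mod_cast h
    rw [CharP.cast_eq_zero_iff F p] at this
    have := Nat.le_of_dvd (by norm_num) this
    omega
  have h3F : (3 : F) ≠ 0 := by
    intro h
    have : ((3 : ℕ) : F) = 0 := by exact_mod_cast h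
    rw [CharP.cast_eq_zero_iff F p] at this
    have := Nat.le_of_dvd (by norm_num) this
    omega
  have hp7 : p ≠ 7 := by
    rintro rfl
    have h0 : (-7 : ZMod 7) = 0 := by
      rw [neg_eq_zero]
      exact_mod_cast ZMod.natCast_self 7
    rw [h0, q_zero] at h7
    norm_num at h7
  have h7F : (7 : F) ≠ 0 := by
    intro h
    have : ((7 : ℕ) : F) = 0 := by exact_mod_cast h
    rw [CharP.cast_eq_zero_iff F p] at this
    exact hp7 ((Nat.prime_dvd_prime_iff_eq hp (by norm_num)).mp this)
  obtain ⟨δ, hδ⟩ := IsAlgClosed.exists_pow_nat_eq (-7 : F) (n := 2) (by norm_num)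
  have hδ0 : δ ≠ 0 := by
    intro h
    rw [h] at hδ
    apply h7F
    linear_combination hδ
  obtain ⟨w, hw⟩ : ∃ w : F, 2 * w = 1 := ⟨2⁻¹, mul_inv_cancel₀ h2F⟩
  obtain ⟨α, hα⟩ : ∃ α : F, δ = 2 * α - 1 := ⟨w * (1 + δ), by linear_combination (-(1 + δ)) * hw⟩
  have hα2 : α ^ 2 = α - 2 := by
    have h4 : (4 : F) ≠ 0 := by
      have : (4 : F) = 2 * 2 := by norm_num
      rw [this]; exact mul_ne_zero h2F h2F
    apply mul_left_cancel₀ h4
    rw [hα] at hδ
    linear_combination hδ
  have hα0 : α ≠ 0 := by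
    intro h
    rw [h] at hα2
    apply h2F
    linear_combination hα2
  -- Frobenius
  have hδp : δ ^ p = - δ := by
    have e1 : ((-7 : ZMod p)) ^ m = -1 := by
      rw [← q_pow m hm, h7]; simp
    have e2 : ((-7 : F)) ^ m = -1 := by
      have := congrArg (algebraMap (ZMod p) F) e1
      rw [map_pow, map_neg, map_neg, map_one, map_ofNat] at this
      exact this
    rw [show δ ^ p = δ ^ (2 * m + 1) from congrArg (fun k : ℕ => δ ^ k) hm, pow_succ, pow_mul, hδ, e2]
    ring
  have hαp : α ^ p = 1 - α := by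
    rw [hα, sub_pow_char, mul_pow, one_pow] at hδp
    have e2 : (2 : F) ^ p = 2 := by
      have := congrArg (algebraMap (ZMod p) F) (ZMod.pow_card (2 : ZMod p))
      rw [map_pow, map_ofNat] at this
      exact this
    rw [e2] at hδp
    apply mul_left_cancel₀ h2F
    linear_combination hδp
  -- the chain of isomorphisms
  set f : F[X] := X * (X ^ 2 + C 21 * X + C 112) with hf
  have hshift1 : f.comp (X + C (α - 11)) =
      X * (X ^ 2 + C (3 * α - 12) * X + C (-21 * α + 7)) := by
    have e1 : (C α : F[X]) ^ 2 = C α - 2 := by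
      rw [← C_pow, hα2, map_sub, map_ofNat]
    simp only [hf, mul_comp, add_comp, pow_comp, X_comp, C_comp]
    simp only [map_sub, map_add, map_mul, map_neg, map_ofNat]
    linear_combination (3 * X + C α - 11) * e1
  have hshift2 : (X * (X ^ 2 + C (-2 * (3 * α - 12)) * X + C ((3 * α - 12) ^ 2 - 4 * (-21 * α + 7)))
      : F[X]).comp (X + C (9 * α - 22)) =
      X * (X ^ 2 + C (α ^ 2 * 21) * X + C ((α ^ 2) ^ 2 * 112)) := by
    have e1 : (C α : F[X]) ^ 2 = C α - 2 := by
      rw [← C_pow, hα2, map_sub, map_ofNat]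
    simp only [mul_comp, add_comp, pow_comp, X_comp, C_comp]
    simp only [map_sub, map_add, map_mul, map_neg, map_ofNat, map_pow]
    linear_combination (-21 * X ^ 2 + X * (-112 * C α ^ 2 - 112 * C α + 256)
      + 36 * (9 * C α - 22)) * e1
  have hne : (3 * α - 12 : F) ≠ 0 := by
    intro h
    have e1 : (3 : F) * (α - 4) = 0 := by linear_combination h
    rcases mul_eq_zero.mp e1 with h | h
    · exact h3F h
    · have : (2 : F) * 7 = 0 := by linear_combination hα2 - (α + 3) * h
      rcases mul_eq_zero.mp this with h | h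
      · exact h2F h
      · exact h7F h
  have hdeg : ∀ a b : F, (X * (X ^ 2 + C a * X + C b) : F[X]).natDegree ≤ 3 := by
    intro a b
    refine natDegree_mul_le.trans ?_
    have : (X ^ 2 + C a * X + C b : F[X]).natDegree ≤ 2 := by compute_degree
    have h1 : (X : F[X]).natDegree ≤ 1 := natDegree_X_le
    omega
  have k1 := HH_shift (p := p) m hm f (hdeg 21 112) (α - 11)
  rw [hshift1, HH_cc, hf, HH_cc] at k1
  have k2 := cc_iso (p := p) m hm (by omega) (3 * α - 12) (-21 * α + 7) hne
  have k3 := HH_shift (p := p) m hm _ (hdeg (-2 * (3 * α - 12))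
    ((3 * α - 12) ^ 2 - 4 * (-21 * α + 7))) (9 * α - 22)
  rw [hshift2, HH_cc, HH_cc] at k3
  have k4 := cc_scale m 21 112 (α ^ 2) (pow_ne_zero 2 hα0)
  rw [k4, ← k2, k1] at k3
  have k5 : α * ((α ^ 2) ^ m) = 1 - α := by
    rw [← hαp, ← pow_mul, show α ^ p = α ^ (2 * m + 1) from congrArg (fun k : ℕ => α ^ k) hm]; ring
  have k6 : δ * cc m (21 : F) 112 = 0 := by
    rw [hα]
    linear_combination (-α) * k3 + (cc m (21 : F) 112) * k5
  have k7 : cc m (21 : F) 112 = 0 := (mul_eq_zero.mp k6).resolve_left hδ0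
  have k8 := cc_map (algebraMap (ZMod p) F) m (21 : ZMod p) 112
  rw [map_ofNat, map_ofNat, k7] at k8
  exact (map_eq_zero (algebraMap (ZMod p) F)).mp k8

/-- the character sum vanishes. -/
theorem S_zero (hp2 : p ≠ 2) (h7 : q p (-7) = -1) : S p 21 112 = 0 := by
  have hp : p.Prime := Fact.out
  obtain ⟨m, hm⟩ : ∃ m, p = 2 * m + 1 := ⟨p / 2, by
    rcases hp.eq_two_or_odd with h | h
    · exact absurd h hp2
    · omega⟩
  have hm1 : 1 ≤ m := by have := hp.two_le; omega
  by_cases hm2 : 2 ≤ m
  · have h1 := S_mod m hm hm1 21 112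
    rw [cc_zero m hm hm2 h7, neg_zero] at h1
    have h2 : (p : ℤ) ∣ S p 21 112 := by
      rwa [ZMod.intCast_zmod_eq_zero_iff_dvd] at h1
    have h3 : |S p 21 112| ≤ 2 * m := by
      unfold S
      rw [← Finset.add_sum_erase univ _ (Finset.mem_univ (0 : ZMod p)), q_zero, zero_mul, zero_add]
      refine (Finset.abs_sum_le_sum_abs _ _).trans ?_
      have hle : ∀ x ∈ univ.erase (0 : ZMod p), |q p x * q p (x ^ 2 + 21 * x + 112)| ≤ 1 := by
        intro x _
        rw [abs_mul]
        have h4 : ∀ y : ZMod p, |q p y| ≤ 1 := by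
          intro y
          rcases (quadraticChar_isQuadratic (ZMod p)) y with h | h | h
          · simp only [q]; rw [h]; simp
          · simp only [q]; rw [h]; simp
          · simp only [q]; rw [h]; simp
        calc |q p x| * |q p (x ^ 2 + 21 * x + 112)| ≤ 1 * 1 :=
              mul_le_mul (h4 _) (h4 _) (abs_nonneg _) zero_le_one
          _ = 1 := by ring
      refine (Finset.sum_le_sum hle).trans ?_
      rw [Finset.sum_const, Finset.card_erase_of_mem (Finset.mem_univ _), Finset.card_univ,
        ZMod.card, nsmul_eq_mul, mul_one]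
      have : p - 1 = 2 * m := by omega
      rw [this]; push_cast; exact le_refl _
    obtain ⟨c, hc⟩ := h2
    rw [hc] at h3 ⊢
    rw [abs_mul] at h3
    have hc0 : c = 0 := by
      by_contra hne
      have h5 : 1 ≤ |c| := Int.one_le_abs hne
      have h6 : |(p : ℤ)| = 2 * m + 1 := by
        rw [abs_of_nonneg (by positivity)]; exact_mod_cast hm
      rw [h6] at h3
      nlinarith
    rw [hc0, mul_zero]
  · have hm3 : m = 1 := by omega
    have hp3 : p = 3 := by omega
    have h30 : ((3 : ℕ) : ZMod p) = 0 := by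
      rw [← hp3]; exact ZMod.natCast_self p
    push_cast at h30
    have e1 : (21 : ZMod p) = 0 := by linear_combination 7 * h30
    have h4 := S_neg (p := p) 0 112
    rw [neg_zero, q_neg_one_of_three (by omega)] at h4
    rw [e1]
    omega

/-- the companion sum. -/
theorem S_zero' (hp2 : p ≠ 2) (h7 : q p (-7) = -1) : S p 42 (-7) = 0 := by
  have h1 := S_zero hp2 h7
  rw [S_iso hp2] at h1
  have e1 : (-2 * 21 : ZMod p) = -42 := by norm_num
  have e2 : ((21 : ZMod p) ^ 2 - 4 * 112) = -7 := by norm_num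
  rw [e1, e2, S_neg] at h1
  have h2 := q_sq (p := p) (a := -1) (by simp)
  rcases mul_eq_zero.mp h1 with h | h
  · rw [h] at h2; norm_num at h2
  · exact h

end Pool.Agent.R945.CM
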