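import Mathlib
import Pool.Agent.R945.CM.Hasse

set_option autoImplicit false

namespace Pool.Agent.R945.CM

open Finset Pool.Agent.R945.LD

variable {p : ℕ} [Fact p.Prime]

lemma sum_range_zmod {M : Type*} [AddCommMonoid M] (f : ZMod p → M) :
    ∑ i ∈ range p, f (i : ZMod p) = ∑ a : ZMod p, f a := by
  apply Finset.sum_bij (fun (i : ℕ) _ => (i : ZMod p))
  · intro a _; simp
  · intro a ha b hb hab
    rw [Finset.mem_range] at ha hb
    have := congrArg ZMod.val hab
    rwa [ZMod.val_natCast_of_lt ha, ZMod.val_natCast_of_lt hb] at this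
  · intro b _
    exact ⟨b.val, by simpa using ZMod.val_lt b, by simp⟩
  · intro a _; rfl

lemma jac_split (m' : ℕ) (hm' : m' ≠ 0) (c d j t : ℤ) :
    jacobiSym (j ^ 2 + c * j * (t * m') + d * (t * m') ^ 2) (p * m') =
    jacobiSym (j ^ 2) m' * q p ((j : ZMod p) ^ 2 + c * j * (t * m') + d * (t * m') ^ 2) := by
  have hp : p.Prime := Fact.out
  have : NeZero p := ⟨hp.ne_zero⟩
  have : NeZero m' := ⟨hm'⟩
  rw [jacobiSym.mul_right, mul_comm]
  congr 1
  · rw [jacobiSym.mod_left, jacobiSym.mod_left (j ^ 2)]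
    congr 1
    have : j ^ 2 + c * j * (t * m') + d * (t * m') ^ 2 = j ^ 2 + (m' : ℤ) * (c * j * t + d * t ^ 2 * m') := by
      ring
    rw [this, Int.add_mul_emod_self_left]
  · rw [← jacobiSym.legendreSym.to_jacobiSym]
    simp only [legendreSym, q]
    push_cast
    rfl

/-- the sum over multiples of `m'`. -/
lemma sum_zero (hp2 : p ≠ 2) (m' : ℕ) (hm' : m' ≠ 0) (c d : ℤ)
    (hS : S p (c : ZMod p) (d : ZMod p) = 0) (j : ℤ) :
    ∑ t ∈ range p, jacobiSym (j ^ 2 + c * j * ((t : ℤ) * m') + d * ((t : ℤ) * m') ^ 2) (p * m') *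
      q p (t : ZMod p) = 0 := by
  have e1 : ∀ t ∈ range p, jacobiSym (j ^ 2 + c * j * ((t : ℤ) * m') + d * ((t : ℤ) * m') ^ 2) (p * m') *
      q p (t : ZMod p) = jacobiSym (j ^ 2) m' *
      (q p ((j : ZMod p) ^ 2 + c * j * ((t : ZMod p) * m') + d * ((t : ZMod p) * m') ^ 2) *
        q p (t : ZMod p)) := by
    intro t _
    rw [jac_split m' hm']
    push_cast
    ring
  rw [Finset.sum_congr rfl e1, ← Finset.mul_sum]
  rw [sum_range_zmod (fun a : ZMod p => q p ((j : ZMod p) ^ 2 + c * j * (a * m') + d * (a * m') ^ 2) *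
        q p a)]
  by_cases h0 : (m' : ZMod p) = 0
  · have e2 : ∀ a : ZMod p, q p ((j : ZMod p) ^ 2 + c * j * (a * m') + d * (a * m') ^ 2) * q p a =
        q p ((j : ZMod p) ^ 2) * q p a := by
      intro a; rw [h0]; simp
    rw [Finset.sum_congr rfl (fun a _ => e2 a), ← Finset.mul_sum, q_sum hp2]
    simp
  · have e2 : ∑ a : ZMod p, q p ((j : ZMod p) ^ 2 + c * j * (a * m') + d * (a * m') ^ 2) * q p a =
        ∑ s : ZMod p, q p (m' : ZMod p) * (q p ((j : ZMod p) ^ 2 + c * j * s + d * s ^ 2) * q p s) := by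
      apply Fintype.sum_equiv (Equiv.mulRight₀ (m' : ZMod p) h0)
      intro a
      show _ = q p (m' : ZMod p) * (q p ((j : ZMod p) ^ 2 + c * j * (a * m') + d * (a * m') ^ 2) *
        q p (a * m'))
      rw [q_mul a]
      have := q_sq h0
      linear_combination (-(q p ((j : ZMod p) ^ 2 + c * j * (a * m') + d * (a * m') ^ 2) * q p a)) * this
    rw [e2, ← Finset.mul_sum, S_hom hp2 _ _ _ hS]
    simp

omit [Fact p.Prime] in
lemma sum_multiples (m' : ℕ) (hm' : m' ≠ 0) (G : ℕ → ℤ) (hG : ∀ k, ¬ m' ∣ k → G k = 0) :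
    ∑ k ∈ range (p * m'), G k = ∑ t ∈ range p, G (t * m') := by
  rw [← Finset.sum_image (s := range p) (g := fun t => t * m') (f := G)]
  · symm
    apply Finset.sum_subset
    · intro k hk
      rw [Finset.mem_image] at hk
      obtain ⟨t, ht, rfl⟩ := hk
      rw [Finset.mem_range] at ht ⊢
      exact Nat.mul_lt_mul_of_pos_right ht (Nat.pos_of_ne_zero hm')
    · intro k hk hk2
      apply hG
      intro hd
      apply hk2
      obtain ⟨t, rfl⟩ := hd
      rw [Finset.mem_image]
      refine ⟨t, ?_, mul_comm _ _⟩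
      rw [Finset.mem_range] at hk ⊢
      rw [mul_comm p] at hk
      exact lt_of_mul_lt_mul_left hk (Nat.zero_le _)
  · intro a _ b _ h
    exact Nat.eq_of_mul_eq_mul_right (Nat.pos_of_ne_zero hm') h

/-- composite case -/
theorem det_composite (hp2 : p ≠ 2) (m' : ℕ) (hm' : 3 ≤ m') (c d : ℤ)
    (hS : S p (c : ZMod p) (d : ZMod p) = 0) (n : ℕ) (hn : n = p * m') :
    (Matrix.of fun j k : Fin (n - 3) => jacobiSym (((j : ℤ) + 2) ^ 2 +
      c * ((j : ℤ) + 2) * ((k : ℤ) + 2) + d * ((k : ℤ) + 2) ^ 2) n).det = 0 := by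
  have hp : p.Prime := Fact.out
  have hp3 : 3 ≤ p := by
    have := hp.two_le; omega
  have hm0 : m' ≠ 0 := by omega
  have hn9 : 9 ≤ n := by
    rw [hn]
    calc 9 = 3 * 3 := by norm_num
      _ ≤ p * m' := Nat.mul_le_mul hp3 hm'
  rw [← Matrix.exists_mulVec_eq_zero_iff]
  set vv : ℕ → ℤ := fun k => if m' ∣ k then q p ((k / m' : ℕ) : ZMod p) else 0 with hvv
  have hvv0 : vv 0 = 0 := by simp [hvv]
  have hvv1 : vv 1 = 0 := by
    rw [hvv]; simp only
    rw [if_neg]
    intro h
    have := Nat.le_of_dvd (by norm_num) h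
    omega
  have hvvn : vv (n - 1) = 0 := by
    rw [hvv]; simp only
    rw [if_neg]
    intro h
    have h2 : m' ∣ n := ⟨p, by rw [hn, mul_comm]⟩
    have h3 : m' ∣ n - (n - 1) := Nat.dvd_sub h2 h
    have h4 : n - (n - 1) = 1 := by omega
    rw [h4] at h3
    have := Nat.le_of_dvd (by norm_num) h3
    omega
  have hvvt : ∀ t : ℕ, vv (t * m') = q p (t : ZMod p) := by
    intro t
    rw [hvv]; simp only
    rw [if_pos (Dvd.intro_left t rfl), Nat.mul_div_cancel _ (by omega)]
  refine ⟨fun i => vv (i + 2), ?_, ?_⟩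
  · intro h0
    have hlt : m' - 2 < n - 3 := by
      have : m' * 3 ≤ p * m' := by rw [mul_comm]; exact Nat.mul_le_mul_right _ hp3
      omega
    have h1 := congrFun h0 ⟨m' - 2, hlt⟩
    simp only [Pi.zero_apply] at h1
    have h2 : m' - 2 + 2 = 1 * m' := by omega
    rw [h2, hvvt] at h1
    simp at h1
  · ext j
    simp only [Matrix.mulVec, dotProduct, Matrix.of_apply, Pi.zero_apply]
    set F : ℕ → ℤ := fun k => jacobiSym (((j : ℤ) + 2) ^ 2 +
      c * ((j : ℤ) + 2) * (k : ℤ) + d * (k : ℤ) ^ 2) n * vv k with hF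
    have e1 : ∑ i : Fin (n - 3), jacobiSym (((j : ℤ) + 2) ^ 2 + c * ((j : ℤ) + 2) * ((i : ℤ) + 2) +
        d * ((i : ℤ) + 2) ^ 2) n * vv (i + 2) = ∑ i ∈ range (n - 3), F (i + 2) := by
      rw [← Fin.sum_univ_eq_sum_range (fun i => F (i + 2))]
      apply Finset.sum_congr rfl
      intro i _
      rw [hF]
      push_cast
      rfl
    rw [e1]
    have e2 : ∑ k ∈ range n, F k = ∑ i ∈ range (n - 3), F (i + 2) := by
      have hn3 : n = (n - 3) + 1 + 1 + 1 := by omega
      have hF1 : F (n - 3 + 1 + 1) = 0 := by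
        have : n - 3 + 1 + 1 = n - 1 := by omega
        rw [hF, this]; simp only; rw [hvvn, mul_zero]
      conv_lhs => rw [hn3]
      rw [Finset.sum_range_succ, Finset.sum_range_succ', Finset.sum_range_succ', hF1]
      have hF0 : F 0 = 0 := by rw [hF]; simp only; rw [hvv0, mul_zero]
      have hF01 : F (0 + 1) = 0 := by rw [hF]; simp only [zero_add]; rw [hvv1, mul_zero]
      rw [hF0, hF01]
      simp
    rw [← e2, hn, sum_multiples m' hm0 F]
    · have h3 := sum_zero hp2 m' hm0 c d hS ((j : ℤ) + 2)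
      rw [← h3]
      apply Finset.sum_congr rfl
      intro t _
      rw [hF]
      simp only
      rw [hvvt, ← hn]
      push_cast
      rfl
    · intro k hk
      rw [hF, hvv]
      simp only
      rw [if_neg hk, mul_zero]

/-- prime case -/
theorem det_prime (h1 : p % 4 = 1) (c d : ℤ) (hS : S p (c : ZMod p) (d : ZMod p) = 0)
    (hd : q p (d : ZMod p) = -1) (hD : (c : ZMod p) ^ 2 - 4 * d ≠ 0) :
    (Matrix.of fun j k : Fin (p - 3) => jacobiSym (((j : ℤ) + 2) ^ 2 +
      c * ((j : ℤ) + 2) * ((k : ℤ) + 2) + d * ((k : ℤ) + 2) ^ 2) p).det = 0 := by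
  have hp : p.Prime := Fact.out
  have hp2 : p ≠ 2 := by omega
  have hp5 : 5 ≤ p := by
    have := hp.two_le; omega
  have hd0 : (d : ZMod p) ≠ 0 := by
    intro h; rw [h, q_zero] at hd; norm_num at hd
  rw [← Matrix.exists_mulVec_eq_zero_iff]
  refine ⟨fun i => q p ((i.val + 2 : ℕ) : ZMod p) - 1, ?_, ?_⟩
  · intro h0
    obtain ⟨a, ha⟩ := quadraticChar_exists_neg_one (ringChar_ne hp2)
    have ha0 : a ≠ 0 := by rintro rfl; simp at ha
    have ha1 : a ≠ 1 := by rintro rfl; simp at ha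
    have ha2 : a ≠ -1 := by
      rintro rfl
      have := q_neg_one_of_one h1
      simp only [q] at this
      rw [ha] at this
      norm_num at this
    have hv0 : a.val ≠ 0 := by rwa [Ne, ZMod.val_eq_zero]
    have hv1 : a.val ≠ 1 := by
      intro h
      apply ha1
      have := ZMod.natCast_zmod_val a
      rw [h] at this
      rw [← this]; simp
    have hv2 : a.val ≠ p - 1 := by
      intro h
      apply ha2
      have := ZMod.natCast_zmod_val a
      rw [h, Nat.cast_sub (by omega)] at this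
      rw [← this]; simp
    have hlt := ZMod.val_lt a
    have h2 := congrFun h0 ⟨a.val - 2, by omega⟩
    simp only [Pi.zero_apply] at h2
    have h3 : a.val - 2 + 2 = a.val := by omega
    rw [h3, ZMod.natCast_zmod_val] at h2
    have : q p a = -1 := ha
    rw [this] at h2
    norm_num at h2
  · ext j
    simp only [Matrix.mulVec, dotProduct, Matrix.of_apply, Pi.zero_apply]
    set jj : ZMod p := ((j.val + 2 : ℕ) : ZMod p) with hjj
    have hjj0 : jj ≠ 0 := by
      intro h
      rw [hjj, ZMod.natCast_eq_zero_iff] at h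
      have := Nat.le_of_dvd (by omega) h
      have := j.2
      omega
    set F : ZMod p → ℤ := fun k => q p (jj ^ 2 + c * jj * k + d * k ^ 2) * (q p k - 1) with hF
    have e1 : ∑ i : Fin (p - 3), jacobiSym (((j : ℤ) + 2) ^ 2 + c * ((j : ℤ) + 2) * ((i : ℤ) + 2) +
        d * ((i : ℤ) + 2) ^ 2) p * (q p ((i.val + 2 : ℕ) : ZMod p) - 1) =
        ∑ i ∈ range (p - 3), F ((i + 2 : ℕ) : ZMod p) := by
      rw [← Fin.sum_univ_eq_sum_range (fun i => F ((i + 2 : ℕ) : ZMod p))]
      apply Finset.sum_congr rfl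
      intro i _
      rw [hF, ← jacobiSym.legendreSym.to_jacobiSym]
      simp only [legendreSym, q, hjj]
      push_cast
      rfl
    rw [e1]
    have e2 : ∑ k ∈ range p, F (k : ZMod p) = ∑ i ∈ range (p - 3), F ((i + 2 : ℕ) : ZMod p) + F 0 := by
      have hn3 : p = (p - 3) + 1 + 1 + 1 := by omega
      have hF1 : F ((p - 3 + 1 + 1 : ℕ) : ZMod p) = 0 := by
        have : p - 3 + 1 + 1 = p - 1 := by omega
        have e3 : ((p - 1 : ℕ) : ZMod p) = -1 := by
          rw [Nat.cast_sub (by omega)]; simp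
        rw [hF, this, e3]; simp only; rw [q_neg_one_of_one h1]; simp
      have e4 : ∑ k ∈ range p, F (k : ZMod p) = ∑ k ∈ range ((p - 3) + 1 + 1 + 1), F (k : ZMod p) := by
        rw [← hn3]
      rw [e4, Finset.sum_range_succ, Finset.sum_range_succ', Finset.sum_range_succ', hF1]
      have hF01 : F ((0 + 1 : ℕ) : ZMod p) = 0 := by
        rw [hF]; simp
      rw [hF01, add_zero, add_zero, Nat.cast_zero]
    have e5 : ∑ a : ZMod p, F a = q p (d : ZMod p) := by
      have e6 : ∀ a : ZMod p, F a = q p (jj ^ 2 + c * jj * a + d * a ^ 2) * q p a -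
          q p (jj ^ 2 + c * jj * a + d * a ^ 2) := by intro a; rw [hF]; ring
      rw [Finset.sum_congr rfl (fun a _ => e6 a), Finset.sum_sub_distrib, S_hom hp2 _ _ _ hS,
        sum_one hp2 _ _ _ hjj0 hd0 hD]
      ring
    rw [sum_range_zmod, e5, hd] at e2
    have hF0 : F 0 = -1 := by
      rw [hF]; simp only
      rw [q_zero]
      have : jj ^ 2 + c * jj * 0 + d * 0 ^ 2 = jj * jj := by ring
      rw [this, q_mul, q_sq hjj0]; norm_num
    rw [hF0] at e2
    linarith

end Pool.Agent.R945.CM
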